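import Pool.Agent.H20.TCol

namespace Pool.Agent.Results.MP_56aac4_co.Gap
open Pool.Agent.H20

theorem result : ¬ ∀ r n k s : ℕ, 1 ≤ n → 2 ≤ k →
    (r + 1) * (k - 1) + 2 * (n - 1) ≤ s → s ≤ (n + r) * k - (r + 1) →
    ∃ (m : ℕ) (G : SimpleGraph (Fin m)), G.chromaticNumber = k ∧ minSpan G r n = s := by
  intro h
  obtain ⟨m, G, _, h2⟩ := h 4 4 3 18 (by norm_num) (by norm_num) (by norm_num) (by norm_num)
  exact TCol.not18 G h2

end Pool.Agent.Results.MP_56aac4_co.Gap
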